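import Pool.Agent.H717.NL.Stmts2

set_option autoImplicit false

/-!
# Merge sort in the model of algebraic computation trees
-/

namespace Pool.Agent.H903.NL

open Pool.Agent.H717.NL Pool.Agent.H717.NL.Vec

/-- Putting an entry in front of a vector is free. -/
theorem cons_free {n : ℕ} {β : Type} [Vec β] :
    Cmp (fun p : β × (Fin n → β) => (Fin.cons p.1 p.2 : Fin (n + 1) → β)) 0 := by
  refine Cmp.free (fun q : Fin (n + 1) × idx β =>
    if hq : (q.1 : ℕ) = 0 then Sum.inl q.2
      else Sum.inr ((⟨(q.1 : ℕ) - 1, by omega⟩ : Fin n), q.2)) ?_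
  rintro p ⟨i, j⟩
  refine Fin.cases ?_ (fun i => ?_) i
  · simp only [Fin.val_zero, dite_true]
    rfl
  · simp only [Fin.val_succ, Nat.add_one_ne_zero, dite_false, Nat.add_sub_cancel]
    rfl

/-- Merging of two vectors of total length `s` costs at most `2 s`. -/
theorem merge_cmp (s : ℕ) : ∀ m l : ℕ, m + l = s →
    ∃ F : (Fin m → ℝ) × (Fin l → ℝ) → (Fin s → ℝ), Cmp F (2 * s) ∧
      ∀ p, List.ofFn (F p) =
        List.merge (List.ofFn p.1) (List.ofFn p.2) (fun a b => decide (a ≤ b)) := by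
  induction s with
  | zero =>
    intro m l h
    obtain rfl : m = 0 := by omega
    obtain rfl : l = 0 := by omega
    exact ⟨fun p => p.1, Cmp.fst, fun p => by simp⟩
  | succ s ih =>
    intro m l h
    rcases m with _ | m
    · obtain rfl : l = s + 1 := by omega
      exact ⟨fun p => p.2, Cmp.snd.mono (by omega), fun p => by simp⟩
    rcases l with _ | l
    · obtain rfl : m = s := by omega
      exact ⟨fun p => p.1, Cmp.fst.mono (by omega), fun p => by simp⟩
    obtain ⟨F1, c1, h1⟩ := ih m (l + 1) (by omega)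
    obtain ⟨F2, c2, h2⟩ := ih (m + 1) l (by omega)
    have hx : Cmp (fun p : (Fin (m + 1) → ℝ) × (Fin (l + 1) → ℝ) => p.1 0) 0 :=
      Cmp.fst.on (Cmp.proj 0)
    have hy : Cmp (fun p : (Fin (m + 1) → ℝ) × (Fin (l + 1) → ℝ) => p.2 0) 0 :=
      Cmp.snd.on (Cmp.proj 0)
    have hx' : Cmp (fun p : (Fin (m + 1) → ℝ) × (Fin (l + 1) → ℝ) =>
        (fun i : Fin m => p.1 i.succ)) 0 := Cmp.fst.on (Cmp.reindex (α := ℝ) Fin.succ)
    have hy' : Cmp (fun p : (Fin (m + 1) → ℝ) × (Fin (l + 1) → ℝ) =>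
        (fun i : Fin l => p.2 i.succ)) 0 := Cmp.snd.on (Cmp.reindex (α := ℝ) Fin.succ)
    refine ⟨fun p => if 0 ≤ p.2 0 - p.1 0 then
        (Fin.cons (p.1 0) (F1 (fun i => p.1 i.succ, p.2)) : Fin (s + 1) → ℝ)
        else (Fin.cons (p.2 0) (F2 (p.1, fun i => p.2 i.succ)) : Fin (s + 1) → ℝ), ?_, ?_⟩
    · refine (Cmp.ite (ch := 1) (cf := 2 * s) (cg := 2 * s) ?_ ?_ ?_).mono ?_
      · exact (hy.sub' hx).mono (by omega)
      · exact ((hx.pair ((hx'.pair Cmp.snd).comp c1)).comp cons_free).mono (by omega)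
      · exact ((hy.pair ((Cmp.fst.pair hy').comp c2)).comp cons_free).mono (by omega)
      · simp only [max_self]; omega
    · rintro ⟨x, y⟩
      by_cases hxy : x 0 ≤ y 0
      · have h0 : 0 ≤ y 0 - x 0 := sub_nonneg.2 hxy
        simp only [h0, if_true]
        rw [List.ofFn_cons, h1, List.ofFn_succ (f := x), List.ofFn_succ (f := y)]
        simp [hxy]
      · have h0 : ¬ 0 ≤ y 0 - x 0 := fun h => hxy (sub_nonneg.1 h)
        simp only [h0, if_false]
        rw [List.ofFn_cons, h2, List.ofFn_succ (f := x), List.ofFn_succ (f := y)]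
        simp [hxy]

/-- A sorted rearrangement of `v` is `v ∘ Tuple.sort v`. -/
theorem eq_sort {N : ℕ} (v w : Fin N → ℝ) (h1 : (List.ofFn w).Pairwise (· ≤ ·))
    (h2 : (List.ofFn w).Perm (List.ofFn v)) : w = fun i => v (Tuple.sort v i) := by
  have h3 : (List.ofFn (v ∘ Tuple.sort v)).Perm (List.ofFn v) :=
    Equiv.Perm.ofFn_comp_perm _ _
  have h4 : (List.ofFn (v ∘ Tuple.sort v)).Pairwise (· ≤ ·) := by
    have := Tuple.monotone_sort v
    rw [List.pairwise_ofFn]
    intro i j hij
    exact this hij.le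
  have h5 : List.ofFn w = List.ofFn (v ∘ Tuple.sort v) :=
    List.Perm.eq_of_pairwise (fun a b _ _ => le_antisymm) h1 h4 (h2.trans h3.symm)
  exact List.ofFn_injective h5

theorem sort_cmp (k : ℕ) : ∀ N : ℕ, N ≤ 2 ^ k →
    Cmp (fun v : Fin N → ℝ => fun i => v (Tuple.sort v i)) (2 * 2 ^ k * (k + 1)) := by
  induction k with
  | zero =>
    intro N hN
    have hN' : N ≤ 1 := by simpa using hN
    refine ((Cmp.id (α := Fin N → ℝ)).congr fun v => ?_).mono (by omega)
    funext i
    congr 1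
    apply Fin.ext
    have := i.2
    have := (Tuple.sort v i).2
    omega
  | succ k ih =>
    intro N hN
    have hN2 : N ≤ 2 * 2 ^ k := by rw [pow_succ] at hN; omega
    obtain ⟨m, l, hml, hm, hl⟩ : ∃ m l, m + l = N ∧ m ≤ 2 ^ k ∧ l ≤ 2 ^ k :=
      ⟨N / 2, N - N / 2, by omega, by omega, by omega⟩
    subst hml
    obtain ⟨F, cF, hF⟩ := merge_cmp (m + l) m l rfl
    have ca : Cmp (fun v : Fin (m + l) → ℝ => fun i : Fin m => v (Fin.castAdd l i)) 0 :=
      Cmp.reindex (α := ℝ) (Fin.castAdd l)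
    have cb : Cmp (fun v : Fin (m + l) → ℝ => fun i : Fin l => v (Fin.natAdd m i)) 0 :=
      Cmp.reindex (α := ℝ) (Fin.natAdd m)
    have c := (((ca.on (ih m hm)).pair (cb.on (ih l hl))).comp cF)
    refine (c.congr fun v => ?_).mono ?_
    · apply eq_sort
      · rw [hF]
        refine List.Pairwise.merge (r := (· ≤ ·)) ?_ ?_
        · rw [List.pairwise_ofFn]
          intro i j hij
          exact Tuple.monotone_sort (fun i : Fin m => v (Fin.castAdd l i)) hij.le
        · rw [List.pairwise_ofFn]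
          intro i j hij
          exact Tuple.monotone_sort (fun i : Fin l => v (Fin.natAdd m i)) hij.le
      · rw [hF]
        refine (List.merge_perm_append (fun a b => decide (a ≤ b))).trans ?_
        rw [List.ofFn_add]
        exact List.Perm.append
          (Equiv.Perm.ofFn_comp_perm (Tuple.sort fun i : Fin m => v (Fin.castAdd l i))
            (fun i : Fin m => v (Fin.castAdd l i)))
          (Equiv.Perm.ofFn_comp_perm (Tuple.sort fun i : Fin l => v (Fin.natAdd m i))
            (fun i : Fin l => v (Fin.natAdd m i)))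
    · have : m + l ≤ 2 * 2 ^ k := hN2
      rw [pow_succ]
      nlinarith

theorem t_sort : S_sort := ⟨2, fun k N hN => sort_cmp k N hN⟩

end Pool.Agent.H903.NL
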